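import Pool.Graph.R_seed8.H902R3.PZ.TaskE
import Pool.Graph.R_seed8.H902R3.PZ.Dat

set_option autoImplicit false

namespace Pool.Agent.H483.UF

/-- there are arbitrarily high zeros on the critical line -/
theorem high_zeros (A : ℝ) : ∃ γ : ℝ, A < γ ∧ 0 < γ ∧ riemannZeta (1 / 2 + γ * Complex.I) = 0 := by
  obtain ⟨T0, hT0⟩ := H370.Expl.main_numeric riemannZeta H370.good_zeta
  have htend := H370.NN_tendsto H370.good_zeta
  have h1 : ∀ᶠ T : ℝ in Filter.atTop, (1 : ℝ) ≤ (H370.NN riemannZeta T (2 * T) : ℝ) :=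
    htend.eventually_ge_atTop 1
  obtain ⟨T, hT, ⟨hTT, hTA⟩, hT1⟩ := (h1.and (((Filter.eventually_ge_atTop T0).and
    (Filter.eventually_gt_atTop A)).and (Filter.eventually_ge_atTop 1))).exists
  have h2 := (hT0 T hTT).1
  have h3 : (0 : ℝ) < (H370.Ns riemannZeta T (2 * T) : ℝ) := by nlinarith
  have h4 : 0 < H370.Ns riemannZeta T (2 * T) := by exact_mod_cast h3
  unfold H370.Ns at h4
  obtain ⟨s, ⟨⟨a1, a2, a3, a4, a5⟩, a6, a7⟩⟩ := Set.nonempty_of_ncard_ne_zero h4.ne'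
  refine ⟨s.im, by linarith, by linarith, ?_⟩
  have : (1 / 2 + (s.im : ℂ) * Complex.I) = s := by
    apply Complex.ext
    · simp [a6]
    · simp
  rw [this]
  exact a5

end Pool.Agent.H483.UF
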