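import Pool.Agent.H483.UF.Zeta
import Pool.Agent.H483.UF.High

set_option autoImplicit false

/-!
# Factorisations in the monoid
-/

namespace Pool.Agent.H483.UF

open Finset Filter Topology Complex
open Pool.Agent.H336R4 Pool.Agent.H902R3.PZ Pool.Agent.H902R3.I469

/-- the class, as arithmetic functions -/
def S (a : ArithmeticFunction ℂ) : Prop := PF.SS (fun n => a n)

/-- primitive elements -/
def P (a : ArithmeticFunction ℂ) : Prop :=
  S a ∧ a ≠ 1 ∧ ∀ f g : ArithmeticFunction ℂ, S f → S g → a = f * g → f = 1 ∨ g = 1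

/-- zeta -/
noncomputable def Zt : ArithmeticFunction ℂ := ((ArithmeticFunction.zeta : ArithmeticFunction ℕ) : ArithmeticFunction ℂ)

lemma Zt_apply {n : ℕ} (hn : n ≠ 0) : Zt n = 1 := by
  unfold Zt
  rw [ArithmeticFunction.natCoe_apply, ArithmeticFunction.zeta_apply_ne hn, Nat.cast_one]

lemma S.one' {a : ArithmeticFunction ℂ} (h : S a) : a 1 = 1 := h.1

lemma S.ram {a : ArithmeticFunction ℂ} (h : S a) : PF.Ram (fun n => a n) := h.2.1

lemma S.sum {a : ArithmeticFunction ℂ} (h : S a) {s : ℂ} (hs : 1 < s.re) : LSeriesSummable (fun n => a n) s :=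
  Pool.Agent.H177R3.PFV.ram_summable h.ram hs

lemma S_one : S 1 := ss_one

lemma S.mul {a b : ArithmeticFunction ℂ} (ha : S a) (hb : S b) : S (a * b) := by
  have h := ss_mul ha hb
  have e : LSeries.convolution (fun n => a n) (fun n => b n) = fun n => (a * b) n :=
    ArithmeticFunction.coe_mul a b
  rw [e] at h
  exact h

lemma LS_mul {a b : ArithmeticFunction ℂ} (ha : S a) (hb : S b) {s : ℂ} (hs : 1 < s.re) :
    LSeries (fun n => (a * b) n) s = LSeries (fun n => a n) s * LSeries (fun n => b n) s :=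
  ArithmeticFunction.LSeries_mul' (ha.sum hs) (hb.sum hs)

lemma nt_of_ne {a : ArithmeticFunction ℂ} (ha : S a) (h : a ≠ 1) : PF.NT (fun n => a n) := by
  by_contra hcon
  unfold PF.NT at hcon
  push Not at hcon
  apply h
  ext n
  rcases Nat.lt_or_ge n 2 with h2 | h2
  · interval_cases n
    · simp
    · rw [ha.one', ArithmeticFunction.one_one]
  · have := hcon n h2
    rw [this, ArithmeticFunction.one_apply_ne (by omega)]

lemma degree_ge {a : ArithmeticFunction ℂ} (ha : S a) (h : a ≠ 1) {d : ℝ} (hd : PF.Cls (fun n => a n) d) :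
    1 ≤ d := degree_ge_one hd (nt_of_ne ha h)

lemma S.zeta : S Zt := by
  refine ss_congr (a := (1 : ℕ → ℂ)) (fun n hn => ?_) (Pool.Agent.H177R3.PFV.cls_ss zeta_cls)
  rw [Zt_apply hn]
  rfl

lemma LS_zeta {s : ℂ} (hs : 1 < s.re) : LSeries (fun n => Zt n) s = riemannZeta s := by
  rw [← LSeries_one_eq_riemannZeta hs]
  refine LSeries_congr (fun {n} hn => ?_) s
  rw [Zt_apply hn]
  rfl

lemma P_zeta : P Zt := by
  refine ⟨S.zeta, ?_, fun f g hf hg hfg => ?_⟩
  · intro h
    have := congrArg (fun a : ArithmeticFunction ℂ => a 2) h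
    simp only [Zt_apply two_ne_zero] at this
    rw [ArithmeticFunction.one_apply_ne (by norm_num)] at this
    exact one_ne_zero this
  · by_contra hcon
    rw [not_or] at hcon
    have h3 := zeta_prim.2.2 (fun n => f n) (fun n => g n) hf hg (fun s hs => by
      rw [← LS_mul hf hg hs, ← hfg, LS_zeta hs, LSeries_one_eq_riemannZeta hs])
    rcases h3 with h3 | h3
    · obtain ⟨n, hn, hne⟩ := nt_of_ne hf hcon.1
      exact hne (h3 n hn)
    · obtain ⟨n, hn, hne⟩ := nt_of_ne hg hcon.2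
      exact hne (h3 n hn)

/-- factorisation into primitive elements -/
theorem factor_aux : ∀ (n : ℕ) (a : ArithmeticFunction ℂ) (d : ℝ), S a → PF.Cls (fun n => a n) d → d < n + 1 →
    ∃ M : Multiset (ArithmeticFunction ℂ), (∀ p ∈ M, P p) ∧ M.prod = a := by
  intro n
  induction n with
  | zero =>
    intro a d ha hd hlt
    by_cases h : a = 1
    · exact ⟨0, by simp, by simp [h]⟩
    · have := degree_ge ha h hd
      norm_num at hlt
      linarith
  | succ n ih =>
    intro a d ha hd hlt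
    by_cases h : a = 1
    · exact ⟨0, by simp, by simp [h]⟩
    · by_cases hP : P a
      · exact ⟨{a}, by simpa using hP, by simp⟩
      · have : ∃ f g : ArithmeticFunction ℂ, S f ∧ S g ∧ a = f * g ∧ f ≠ 1 ∧ g ≠ 1 := by
          by_contra hno
          apply hP
          refine ⟨ha, h, fun f g hf hg hfg => ?_⟩
          by_contra hcon
          rw [not_or] at hcon
          exact hno ⟨f, g, hf, hg, hfg, hcon.1, hcon.2⟩
        obtain ⟨f, g, hf, hg, hfg, hf1, hg1⟩ := this
        obtain ⟨d₁, hd₁⟩ := Pool.Agent.H177R3.PFV.ss_cls hf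
        obtain ⟨d₂, hd₂⟩ := Pool.Agent.H177R3.PFV.ss_cls hg
        have hadd := PF.degAdd _ _ _ d d₁ d₂ hd hd₁ hd₂ (fun s hs => by
          rw [← LS_mul hf hg hs, ← hfg])
        have h1 := degree_ge hf hf1 hd₁
        have h2 := degree_ge hg hg1 hd₂
        push_cast at hlt
        obtain ⟨M₁, m1, m2⟩ := ih f d₁ hf hd₁ (by linarith)
        obtain ⟨M₂, m3, m4⟩ := ih g d₂ hg hd₂ (by linarith)
        refine ⟨M₁ + M₂, ?_, by rw [Multiset.prod_add, m2, m4, hfg]⟩
        intro p hp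
        rcases Multiset.mem_add.1 hp with hp | hp
        · exact m1 p hp
        · exact m3 p hp

theorem factor {a : ArithmeticFunction ℂ} (ha : S a) :
    ∃ M : Multiset (ArithmeticFunction ℂ), (∀ p ∈ M, P p) ∧ M.prod = a := by
  obtain ⟨d, hd⟩ := Pool.Agent.H177R3.PFV.ss_cls ha
  exact factor_aux ⌈d⌉₊ a d ha hd (lt_of_le_of_lt (Nat.le_ceil d) (by linarith))

lemma S.prod {M : Multiset (ArithmeticFunction ℂ)} (h : ∀ p ∈ M, S p) : S M.prod := by
  induction M using Multiset.induction_on with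
  | empty => simpa using S_one
  | cons a M ih =>
    rw [Multiset.prod_cons]
    exact (h a (Multiset.mem_cons_self a M)).mul (ih fun p hp => h p (Multiset.mem_cons_of_mem hp))

/-- the three elements -/
theorem three : ∃ F₁ F₂ G : ArithmeticFunction ℂ, S F₁ ∧ S F₂ ∧ S G ∧ F₁ * F₂ = Zt * G ∧
    (¬ ∃ K, S K ∧ F₁ = Zt * K) ∧ (¬ ∃ K, S K ∧ F₂ = Zt * K) := by
  obtain ⟨γ₁, -, h1, z1⟩ := high_zeros 0
  obtain ⟨γ₂, h12, h2, z2⟩ := high_zeros γ₁
  obtain ⟨D₁, hD₁⟩ := exists_dat h1 z1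
  obtain ⟨D₂, hD₂⟩ := exists_dat h2 z2
  have hne : D₁.γ ≠ D₂.γ := by rw [hD₁, hD₂]; exact h12.ne
  obtain ⟨T, hT1, hT2⟩ := exists_two hne
  have key : ∀ a : ℕ → ℂ, (fun n => (toArithmeticFunction a) n) = fun n => if n = 0 then 0 else a n := by
    intro a
    rfl
  have hS : ∀ a : ℕ → ℂ, PF.SS a → S (toArithmeticFunction a) := by
    intro a ha
    refine ss_congr (fun n hn => ?_) ha
    change a n = if n = 0 then 0 else a n
    rw [if_neg hn]
  have hnd : ∀ D : Dat, ¬ ∃ K, S K ∧ toArithmeticFunction (aa D.m D.β) = Zt * K := by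
    rintro D ⟨K, hK, he⟩
    apply not_dvd D hK
    intro s hs
    have h3 : LSeries (aa D.m D.β) s = LSeries (fun n => (toArithmeticFunction (aa D.m D.β)) n) s := by
      refine LSeries_congr (fun {n} hn => ?_) s
      change _ = if n = 0 then 0 else _
      rw [if_neg hn]
    rw [h3, he, LS_mul S.zeta hK hs, LS_zeta hs]
  refine ⟨toArithmeticFunction (aa D₁.m D₁.β), toArithmeticFunction (aa D₂.m D₂.β),
    toArithmeticFunction T.a, hS _ (dat_ss D₁), hS _ (dat_ss D₂), hS _ T.ss, ?_, hnd D₁, hnd D₂⟩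
  -- the identity of coefficients
  have eaa : ∀ D : Dat, toArithmeticFunction (aa D.m D.β) =
      Zt * toArithmeticFunction (ff D.m D.β) := by
    intro D
    ext n
    rcases eq_or_ne n 0 with rfl | hn
    · simp
    · change (if n = 0 then 0 else aa D.m D.β n) = _
      rw [if_neg hn]
      unfold aa LSeries.convolution
      congr 2
      ext k
      rcases eq_or_ne k 0 with rfl | hk
      · simp
      · rw [Zt_apply hk]
        change (if k = 0 then 0 else (1 : ℕ → ℂ) k) = 1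
        rw [if_neg hk]
        rfl
  have eT : toArithmeticFunction T.a =
      toArithmeticFunction (aa D₁.m D₁.β) * toArithmeticFunction (ff D₂.m D₂.β) := by
    ext n
    rcases eq_or_ne n 0 with rfl | hn
    · simp
    · change (if n = 0 then 0 else T.a n) = _
      rw [if_neg hn]
      unfold Two.a LSeries.convolution
      rw [hT1, hT2]
  rw [eT, eaa D₂]
  ring

/-! ### correlation with zeta -/

/-- `∑_{p ≤ N} a(p) / p` -/
noncomputable def TT (a : ArithmeticFunction ℂ) (N : ℕ) : ℂ :=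
  ∑ p ∈ (Finset.Iic N).filter Nat.Prime, a p / (p : ℂ)

lemma TT_mul {a b : ArithmeticFunction ℂ} (ha : S a) (hb : S b) (N : ℕ) : TT (a * b) N = TT a N + TT b N := by
  unfold TT
  rw [← Finset.sum_add_distrib]
  refine Finset.sum_congr rfl fun p hp => ?_
  have hp' := (Finset.mem_filter.1 hp).2
  rw [ArithmeticFunction.mul_apply, Nat.sum_divisorsAntidiagonal (fun x y => a x * b y), hp'.sum_divisors]
  simp only [Nat.div_self hp'.pos, Nat.div_one, ha.one', hb.one', one_mul, mul_one]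
  ring

lemma TT_one (N : ℕ) : TT 1 N = 0 := by
  unfold TT
  refine Finset.sum_eq_zero fun p hp => ?_
  have hp' := (Finset.mem_filter.1 hp).2
  rw [ArithmeticFunction.one_apply_ne hp'.one_lt.ne', zero_div]

/-- bounded sums -/
def Bd (a : ArithmeticFunction ℂ) : Prop := ∃ C : ℝ, ∀ N : ℕ, ‖TT a N‖ ≤ C

lemma Bd.mul {a b : ArithmeticFunction ℂ} (ha : S a) (hb : S b) (h1 : Bd a) (h2 : Bd b) : Bd (a * b) := by
  obtain ⟨C₁, h1⟩ := h1
  obtain ⟨C₂, h2⟩ := h2
  exact ⟨C₁ + C₂, fun N => by rw [TT_mul ha hb]; exact (norm_add_le _ _).trans (add_le_add (h1 N) (h2 N))⟩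

lemma Bd_prod {M : Multiset (ArithmeticFunction ℂ)} (h : ∀ p ∈ M, S p) (hB : ∀ p ∈ M, Bd p) : Bd M.prod := by
  induction M using Multiset.induction_on with
  | empty => exact ⟨0, fun N => by simp [TT_one]⟩
  | cons a M ih =>
    rw [Multiset.prod_cons]
    have h' : ∀ p ∈ M, S p := fun p hp => h p (Multiset.mem_cons_of_mem hp)
    exact (hB a (Multiset.mem_cons_self a M)).mul (h a (Multiset.mem_cons_self a M)) (S.prod h')
      (ih h' fun p hp => hB p (Multiset.mem_cons_of_mem hp))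

lemma TT_zeta (N : ℕ) : TT Zt N = ((∑ p ∈ (Finset.Iic N).filter Nat.Prime, (1 : ℝ) / p : ℝ) : ℂ) := by
  unfold TT
  push_cast
  refine Finset.sum_congr rfl fun p hp => ?_
  have hp' := (Finset.mem_filter.1 hp).2
  rw [Zt_apply hp'.ne_zero]

lemma not_Bd_zeta_pow {k : ℕ} (hk : 1 ≤ k) : ∀ C : ℝ, ∃ N : ℕ, C < ‖(k : ℂ) * TT Zt N‖ := by
  intro C
  by_contra hcon
  push Not at hcon
  apply Nat.Primes.not_summable_one_div
  have hnn : ∀ p : Nat.Primes, (0:ℝ) ≤ 1 / (p : ℕ) := fun p => by positivity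
  refine summable_of_sum_le hnn (c := C) fun u => ?_
  obtain ⟨N, hN⟩ : ∃ N : ℕ, ∀ p ∈ u, (p : ℕ) ≤ N := ⟨u.sup (fun p => (p : ℕ)), fun p hp => Finset.le_sup (f := fun p : Nat.Primes => (p : ℕ)) hp⟩
  have h1 : ∑ p ∈ u, (1 : ℝ) / (p : ℕ) ≤ ∑ p ∈ (Finset.Iic N).filter Nat.Prime, (1 : ℝ) / p := by
    have h2 : ∑ p ∈ u, (1 : ℝ) / (p : ℕ) = ∑ p ∈ u.map ⟨fun p : Nat.Primes => (p : ℕ), Subtype.val_injective⟩, (1 : ℝ) / p := by
      rw [Finset.sum_map]
      rfl
    rw [h2]
    refine Finset.sum_le_sum_of_subset_of_nonneg ?_ fun p _ _ => by positivity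
    intro p hp
    obtain ⟨q, hq, rfl⟩ := Finset.mem_map.1 hp
    rw [Finset.mem_filter, Finset.mem_Iic]
    exact ⟨hN q hq, q.2⟩
  refine h1.trans ?_
  have h3 := hcon N
  rw [TT_zeta, norm_mul, Complex.norm_natCast, Complex.norm_real, Real.norm_of_nonneg (by positivity)] at h3
  have hk' : (1:ℝ) ≤ k := by exact_mod_cast hk
  have h4 : (0:ℝ) ≤ ∑ p ∈ (Finset.Iic N).filter Nat.Prime, (1 : ℝ) / p := by positivity
  nlinarith

lemma TT_zeta_pow (k : ℕ) (N : ℕ) : TT (Zt ^ k) N = k * TT Zt N ∧ S (Zt ^ k) := by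
  induction k with
  | zero => exact ⟨by simp [TT_one], by simpa using S_one⟩
  | succ k ih =>
    rw [pow_succ]
    refine ⟨?_, ih.2.mul S.zeta⟩
    rw [TT_mul ih.2 S.zeta, ih.1]
    push_cast
    ring

end Pool.Agent.H483.UF
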