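import Pool.Agent.H483.UF.Third

set_option autoImplicit false

/-!
# Membership in the Selberg class
-/

namespace Pool.Agent.H483.UF

open Finset Pool.Agent.H469R10.HO Pool.Agent.H902R3.I469 Pool.Agent.H902R3.PZ Filter Topology Complex
open Pool.Agent.Y861.SelZ Pool.Agent.H336R4

lemma np_of_pos {x : ℂ} (h : 0 < x.re) : ∀ n : ℕ, x ≠ -(n : ℂ) := by
  intro n hn
  rw [hn] at h
  simp at h
  have : (0 : ℝ) ≤ n := Nat.cast_nonneg n
  linarith

lemma re_lam {l : ℝ} (hl : 0 < l) {s : ℂ} (hs : 0 < s.re) : 0 < ((l : ℂ) * s + 1 / 6).re := by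
  have : ((l : ℂ) * s + 1 / 6).re = l * s.re + 1 / 6 := by
    simp
  rw [this]
  positivity

lemma re_half {s : ℂ} (hs : 0 < s.re) : 0 < ((1 / 2 : ℂ) * s).re := by
  have : ((1 / 2 : ℂ) * s).re = 1 / 2 * s.re := by
    simp
  rw [this]
  positivity

/-- from real functional equation to the form of the class -/
lemma conj_pow {Q : ℝ} (hQ : 0 < Q) (s : ℂ) :
    ((Q : ℝ) : ℂ) ^ (starRingEnd ℂ s) = starRingEnd ℂ (((Q : ℝ) : ℂ) ^ s) := by
  rw [pow_eq_exp hQ, pow_eq_exp hQ, ← Complex.exp_conj, map_mul, Complex.conj_ofReal]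

theorem Two.ss (T : Two) : PF.SS T.a := by
  refine ⟨T.eul.one, T.eul.ram, ⟨1, T.G, T.G_diff, T.G_gr.order, ?_, T.Q, T.Q_pos, 3,
    ![1 / 2, T.W₁.D.lam, T.W₂.D.lam], ![0, 1 / 6, 1 / 6], 1, ?_, ?_, by simp, ?_⟩, ?_⟩
  · intro s hs
    have hs1 : s ≠ 1 := by
      intro h
      rw [h] at hs
      simp at hs
    have hs2 : s - 1 ≠ 0 := sub_ne_zero.2 hs1
    rw [T.a_series hs]
    unfold Two.F
    field_simp
  · intro j
    fin_cases j
    · norm_num
    · simpa using T.W₁.D.lam_pos'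
    · simpa using T.W₂.D.lam_pos'
  · intro j
    fin_cases j <;> norm_num
  · intro s hs0 hs1
    have hp1 := T.W₁.D.lam_pos'
    have hp2 := T.W₂.D.lam_pos'
    have hs' : 0 < (1 - s).re := by simp; linarith
    have hne0 : s ≠ 0 := by intro h; rw [h] at hs0; simp at hs0
    have hne1 : s ≠ 1 := by intro h; rw [h] at hs1; simp at hs1
    have key := T.FE hne0 hne1 (np_of_pos (re_half hs0)) (np_of_pos (re_lam hp1 hs0))
      (np_of_pos (re_lam hp2 hs0)) (np_of_pos (re_half hs')) (np_of_pos (re_lam hp1 hs'))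
      (np_of_pos (re_lam hp2 hs'))
    have e : ∀ w : ℂ, (∏ j, Complex.Gamma ((((![1 / 2, T.W₁.D.lam, T.W₂.D.lam] : Fin 3 → ℝ) j : ℝ) : ℂ) * w +
        (![0, 1 / 6, 1 / 6] : Fin 3 → ℂ) j)) =
        Complex.Gamma (1 / 2 * w) * Complex.Gamma ((T.W₁.D.lam : ℂ) * w + 1 / 6) *
        Complex.Gamma ((T.W₂.D.lam : ℂ) * w + 1 / 6) := by
      intro w
      rw [Fin.prod_univ_three]
      simp
    have c1 : (1 : ℂ) - starRingEnd ℂ s = starRingEnd ℂ (1 - s) := by rw [map_sub, map_one]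
    have c2 : ∀ w : ℂ, (1 / 2 : ℂ) * starRingEnd ℂ w = starRingEnd ℂ (1 / 2 * w) := by
      intro w; rw [map_mul, map_div₀, map_one, Complex.conj_ofNat]
    have c3 : ∀ (l : ℝ) (w : ℂ), (l : ℂ) * starRingEnd ℂ w + 1 / 6 = starRingEnd ℂ ((l : ℂ) * w + 1 / 6) := by
      intro l w; rw [map_add, map_mul, map_div₀, map_one, Complex.conj_ofNat, Complex.conj_ofReal]
    have hF : ∀ w : ℂ, T.G w / (w - 1) ^ 1 = T.F w := by intro w; rw [pow_one]; rfl
    rw [e, e, hF, hF, one_mul, c1, c2, c3, c3, Complex.Gamma_conj, Complex.Gamma_conj, Complex.Gamma_conj,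
      T.F_conj, conj_pow T.Q_pos]
    simp only [map_mul, Complex.conj_conj]
    linear_combination key
  · refine ⟨_, T.eul.supp, 0, by norm_num, ?_⟩
    obtain ⟨C, hC⟩ := T.eul.bd
    refine ⟨C, fun n _ => by rw [Real.rpow_zero, mul_one]; exact hC n, fun s hs => ?_⟩
    exact ((T.eul.exp s hs).2).symm

/-- `ζ H` belongs to the class -/
theorem dat_ss (D : Dat) : PF.SS (aa D.m D.β) := by
  refine ⟨aa_one, aa_ramanujan D.hβ, ⟨1, D.G, D.G_diff, D.G_gr.order, ?_, D.Q, D.Q_pos, 2,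
    ![1 / 2, D.lam], ![0, 1 / 6], 1, ?_, ?_, by simp, ?_⟩, ?_⟩
  · intro s hs
    have hs1 : s ≠ 1 := by
      intro h
      rw [h] at hs
      simp at hs
    have hs2 : s - 1 ≠ 0 := sub_ne_zero.2 hs1
    rw [← D.F_series hs]
    unfold Dat.F
    field_simp
  · intro j
    fin_cases j
    · norm_num
    · simpa using D.lam_pos'
  · intro j
    fin_cases j <;> norm_num
  · intro s hs0 hs1
    have hp1 := D.lam_pos'
    have hs' : 0 < (1 - s).re := by simp; linarith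
    have hne0 : s ≠ 0 := by intro h; rw [h] at hs0; simp at hs0
    have hne1 : s ≠ 1 := by intro h; rw [h] at hs1; simp at hs1
    have key := D.FE hne0 hne1 (np_of_pos (re_half hs0)) (np_of_pos (re_lam hp1 hs0))
      (np_of_pos (re_half hs')) (np_of_pos (re_lam hp1 hs'))
    have e : ∀ w : ℂ, (∏ j, Complex.Gamma ((((![1 / 2, D.lam] : Fin 2 → ℝ) j : ℝ) : ℂ) * w +
        (![0, 1 / 6] : Fin 2 → ℂ) j)) =
        Complex.Gamma (1 / 2 * w) * Complex.Gamma ((D.lam : ℂ) * w + 1 / 6) := by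
      intro w
      rw [Fin.prod_univ_two]
      simp
    have c1 : (1 : ℂ) - starRingEnd ℂ s = starRingEnd ℂ (1 - s) := by rw [map_sub, map_one]
    have c2 : ∀ w : ℂ, (1 / 2 : ℂ) * starRingEnd ℂ w = starRingEnd ℂ (1 / 2 * w) := by
      intro w; rw [map_mul, map_div₀, map_one, Complex.conj_ofNat]
    have c3 : ∀ (l : ℝ) (w : ℂ), (l : ℂ) * starRingEnd ℂ w + 1 / 6 = starRingEnd ℂ ((l : ℂ) * w + 1 / 6) := by
      intro l w; rw [map_add, map_mul, map_div₀, map_one, Complex.conj_ofNat, Complex.conj_ofReal]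
    have hF : ∀ w : ℂ, D.G w / (w - 1) ^ 1 = D.F w := by intro w; rw [pow_one]; rfl
    rw [e, e, hF, hF, one_mul, c1, c2, c3, Complex.Gamma_conj, Complex.Gamma_conj,
      D.F_conj, conj_pow D.Q_pos]
    simp only [map_mul, Complex.conj_conj]
    linear_combination key
  · refine ⟨bF D.m D.β, fun n hn => bF_eq_zero hn, 0, by norm_num, 2, fun n _ => by
      rw [Real.rpow_zero, mul_one]; exact norm_bF_le D.hβ n, fun s hs => (exp_bF D.hβ hs).symm⟩

end Pool.Agent.H483.UF
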