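import Pool.Agent.H483.UF.Mem

set_option autoImplicit false

/-!
# The monoid structure: closure under multiplication, zeta, factorisation into primitives
-/

namespace Pool.Agent.H483.UF

open Finset Filter Topology Complex
open Pool.Agent.H336R4

/-! ### closure under multiplication -/

lemma order_mul {f g : ℂ → ℂ} (hf : Continuous f) (hg : Continuous g)
    (h1 : ∃ ρ C : ℝ, ∀ z : ℂ, ‖f z‖ ≤ C * Real.exp (‖z‖ ^ ρ))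
    (h2 : ∃ ρ C : ℝ, ∀ z : ℂ, ‖g z‖ ≤ C * Real.exp (‖z‖ ^ ρ)) :
    ∃ ρ C : ℝ, ∀ z : ℂ, ‖f z * g z‖ ≤ C * Real.exp (‖z‖ ^ ρ) := by
  obtain ⟨ρ₁, C₁, h1⟩ := h1
  obtain ⟨ρ₂, C₂, h2⟩ := h2
  set M : ℝ := max (max ρ₁ ρ₂) 0 with hM
  have hM1 : ρ₁ ≤ M := (le_max_left _ _).trans (le_max_left _ _)
  have hM2 : ρ₂ ≤ M := (le_max_right _ _).trans (le_max_left _ _)
  obtain ⟨B, hB⟩ := (isCompact_closedBall (0 : ℂ) 2).exists_bound_of_continuousOn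
    ((hf.mul hg).continuousOn (s := Metric.closedBall (0 : ℂ) 2))
  have hC1 : 0 ≤ C₁ := by
    have := (norm_nonneg _).trans (h1 0)
    by_contra hneg
    push Not at hneg
    have h3 := Real.exp_pos (‖(0 : ℂ)‖ ^ ρ₁)
    nlinarith
  have hC2 : 0 ≤ C₂ := by
    have := (norm_nonneg _).trans (h2 0)
    by_contra hneg
    push Not at hneg
    have h3 := Real.exp_pos (‖(0 : ℂ)‖ ^ ρ₂)
    nlinarith
  refine ⟨M + 1, max B (C₁ * C₂), fun z => ?_⟩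
  have hz0 := norm_nonneg z
  rcases le_total ‖z‖ 2 with hz | hz
  · have h3 := hB z (by simpa using hz)
    have h4 : (0:ℝ) ≤ ‖z‖ ^ (M + 1) := Real.rpow_nonneg hz0 _
    have h5 : 1 ≤ Real.exp (‖z‖ ^ (M + 1)) := Real.one_le_exp h4
    have hB0 : 0 ≤ B := (norm_nonneg _).trans h3
    calc ‖f z * g z‖ ≤ B := h3
      _ ≤ max B (C₁ * C₂) * 1 := by rw [mul_one]; exact le_max_left _ _
      _ ≤ _ := mul_le_mul_of_nonneg_left h5 (hB0.trans (le_max_left _ _))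
  · have hz1 : (1:ℝ) ≤ ‖z‖ := by linarith
    have e1 : ‖z‖ ^ ρ₁ ≤ ‖z‖ ^ M := Real.rpow_le_rpow_of_exponent_le hz1 hM1
    have e2 : ‖z‖ ^ ρ₂ ≤ ‖z‖ ^ M := Real.rpow_le_rpow_of_exponent_le hz1 hM2
    have e3 : ‖z‖ ^ (M + 1) = ‖z‖ ^ M * ‖z‖ := by
      rw [Real.rpow_add (by linarith), Real.rpow_one]
    have e4 : (0:ℝ) ≤ ‖z‖ ^ M := Real.rpow_nonneg hz0 _
    have e5 : ‖z‖ ^ ρ₁ + ‖z‖ ^ ρ₂ ≤ ‖z‖ ^ (M + 1) := by rw [e3]; nlinarith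
    calc ‖f z * g z‖ = ‖f z‖ * ‖g z‖ := norm_mul _ _
      _ ≤ (C₁ * Real.exp (‖z‖ ^ ρ₁)) * (C₂ * Real.exp (‖z‖ ^ ρ₂)) :=
        mul_le_mul (h1 z) (h2 z) (norm_nonneg _) (by positivity)
      _ = (C₁ * C₂) * Real.exp (‖z‖ ^ ρ₁ + ‖z‖ ^ ρ₂) := by rw [Real.exp_add]; ring
      _ ≤ (C₁ * C₂) * Real.exp (‖z‖ ^ (M + 1)) := by gcongr
      _ ≤ _ := by
        gcongr
        exact le_max_right _ _

lemma fe_mul {m₁ m₂ : ℕ} {G₁ G₂ : ℂ → ℂ} {Q₁ Q₂ : ℝ} {k₁ k₂ : ℕ} {l₁ : Fin k₁ → ℝ} {l₂ : Fin k₂ → ℝ}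
    {μ₁ : Fin k₁ → ℂ} {μ₂ : Fin k₂ → ℂ} {ω₁ ω₂ : ℂ} (hQ₁ : 0 < Q₁) (hQ₂ : 0 < Q₂)
    (h₁ : PF.FE m₁ G₁ Q₁ k₁ l₁ μ₁ ω₁) (h₂ : PF.FE m₂ G₂ Q₂ k₂ l₂ μ₂ ω₂) :
    PF.FE (m₁ + m₂) (fun s => G₁ s * G₂ s) (Q₁ * Q₂) (k₁ + k₂) (Fin.append l₁ l₂) (Fin.append μ₁ μ₂)
      (ω₁ * ω₂) := by
  obtain ⟨a1, a2, a3, a4⟩ := h₁
  obtain ⟨b1, b2, b3, b4⟩ := h₂
  refine ⟨?_, ?_, by rw [norm_mul, a3, b3, mul_one], ?_⟩
  · intro j
    refine Fin.addCases (fun i => ?_) (fun i => ?_) j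
    · rw [Fin.append_left]; exact a1 i
    · rw [Fin.append_right]; exact b1 i
  · intro j
    refine Fin.addCases (fun i => ?_) (fun i => ?_) j
    · rw [Fin.append_left]; exact a2 i
    · rw [Fin.append_right]; exact b2 i
  · intro s hs0 hs1
    have hprod : ∀ w : ℂ, (∏ j, Complex.Gamma (((Fin.append l₁ l₂ j : ℝ) : ℂ) * w + Fin.append μ₁ μ₂ j)) =
        (∏ j, Complex.Gamma ((l₁ j : ℂ) * w + μ₁ j)) * ∏ j, Complex.Gamma ((l₂ j : ℂ) * w + μ₂ j) := by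
      intro w
      rw [Fin.prod_univ_add]
      simp only [Fin.append_left, Fin.append_right]
    have hpow : ∀ w : ℂ, ((Q₁ * Q₂ : ℝ) : ℂ) ^ w = (Q₁ : ℂ) ^ w * (Q₂ : ℂ) ^ w := by
      intro w
      push_cast
      exact Complex.mul_cpow_ofReal_nonneg hQ₁.le hQ₂.le w
    have e : ∀ w : ℂ, (((Q₁ * Q₂ : ℝ) : ℂ)) ^ w *
        (∏ j, Complex.Gamma (((Fin.append l₁ l₂ j : ℝ) : ℂ) * w + Fin.append μ₁ μ₂ j)) *
        (G₁ w * G₂ w / (w - 1) ^ (m₁ + m₂)) =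
        ((Q₁ : ℂ) ^ w * (∏ j, Complex.Gamma ((l₁ j : ℂ) * w + μ₁ j)) * (G₁ w / (w - 1) ^ m₁)) *
        ((Q₂ : ℂ) ^ w * (∏ j, Complex.Gamma ((l₂ j : ℂ) * w + μ₂ j)) * (G₂ w / (w - 1) ^ m₂)) := by
      intro w
      rw [hprod, hpow, pow_add, mul_div_mul_comm]
      ring
    rw [e, e, a4 s hs0 hs1, b4 s hs0 hs1, mul_mul_mul_comm, ← map_mul]

lemma eul_mul {a₁ a₂ : ℕ → ℂ} (o₁ : a₁ 1 = 1) (o₂ : a₂ 1 = 1) (r₁ : PF.Ram a₁) (r₂ : PF.Ram a₂)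
    (h₁ : PF.Eul a₁) (h₂ : PF.Eul a₂) : PF.Eul (LSeries.convolution a₁ a₂) := by
  obtain ⟨b₁, s₁, θ₁, t₁, C₁, c₁, e₁⟩ := h₁
  obtain ⟨b₂, s₂, θ₂, t₂, C₂, c₂, e₂⟩ := h₂
  have hC1 : 0 ≤ C₁ := by
    have := (norm_nonneg _).trans (c₁ 1 le_rfl)
    simpa using this
  have hC2 : 0 ≤ C₂ := by
    have := (norm_nonneg _).trans (c₂ 1 le_rfl)
    simpa using this
  refine ⟨b₁ + b₂, fun n hn => by rw [Pi.add_apply, s₁ n hn, s₂ n hn, add_zero], max θ₁ θ₂,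
    max_lt t₁ t₂, C₁ + C₂, fun n hn => ?_, fun s hs => ?_⟩
  · have hn1 : (1:ℝ) ≤ n := by exact_mod_cast hn
    rw [Pi.add_apply, add_mul]
    refine (norm_add_le _ _).trans (add_le_add ((c₁ n hn).trans ?_) ((c₂ n hn).trans ?_))
    · exact mul_le_mul_of_nonneg_left (Real.rpow_le_rpow_of_exponent_le hn1 (le_max_left _ _)) hC1
    · exact mul_le_mul_of_nonneg_left (Real.rpow_le_rpow_of_exponent_le hn1 (le_max_right _ _)) hC2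
  · have f₁ : LSeriesSummable b₁ s := Pool.Agent.H177R3.Lit.b_summable o₁ r₁ s₁ t₁ c₁
      (fun s hs => e₁ s (by linarith)) hs
    have f₂ : LSeriesSummable b₂ s := Pool.Agent.H177R3.Lit.b_summable o₂ r₂ s₂ t₂ c₂
      (fun s hs => e₂ s (by linarith)) hs
    rw [LSeries_add f₁ f₂, Complex.exp_add, ← e₁ s hs, ← e₂ s hs]
    exact LSeries_convolution' (Pool.Agent.H177R3.PFV.ram_summable r₁ hs)
      (Pool.Agent.H177R3.PFV.ram_summable r₂ hs)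

theorem ss_mul {a b : ℕ → ℂ} (ha : PF.SS a) (hb : PF.SS b) : PF.SS (LSeries.convolution a b) := by
  obtain ⟨a1, a2, ⟨m₁, G₁, g1, g2, g3, Q₁, hQ₁, k₁, l₁, μ₁, ω₁, u1, u2, u3, u4⟩, a3⟩ := ha
  obtain ⟨b1, b2, ⟨m₂, G₂, h1, h2, h3, Q₂, hQ₂, k₂, l₂, μ₂, ω₂, v1, v2, v3, v4⟩, b3⟩ := hb
  obtain ⟨w1, w2, w3, w4⟩ := fe_mul (m₁ := m₁) (m₂ := m₂) (G₁ := G₁) (G₂ := G₂) hQ₁ hQ₂
    ⟨u1, u2, u3, u4⟩ ⟨v1, v2, v3, v4⟩
  refine ⟨?_, Pool.Agent.Y861.SelZ.ram_mul a2 b2, ⟨m₁ + m₂, fun s => G₁ s * G₂ s, g1.mul h1,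
    order_mul g1.continuous h1.continuous g2 h2, ?_, Q₁ * Q₂, mul_pos hQ₁ hQ₂, k₁ + k₂,
    Fin.append l₁ l₂, Fin.append μ₁ μ₂, ω₁ * ω₂, w1, w2, w3, w4⟩, eul_mul a1 b1 a2 b2 a3 b3⟩
  · rw [LSeries.convolution_def]
    simp [a1, b1]
  · intro s hs
    change G₁ s * G₂ s = _
    rw [LSeries_convolution' (Pool.Agent.H177R3.PFV.ram_summable a2 hs)
      (Pool.Agent.H177R3.PFV.ram_summable b2 hs), g3 s hs, h3 s hs, pow_add]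
    ring

/-- only the values at `n ≥ 1` matter -/
theorem ss_congr {a b : ℕ → ℂ} (h : ∀ n : ℕ, n ≠ 0 → a n = b n) (ha : PF.SS a) : PF.SS b := by
  have hL : LSeries a = LSeries b := by
    funext s
    exact LSeries_congr (fun {n} hn => h n hn) s
  obtain ⟨a1, a2, a3, a4⟩ := ha
  refine ⟨by rw [← h 1 one_ne_zero]; exact a1, fun ε hε => ?_, by rw [← hL]; exact a3, by rw [← hL]; exact a4⟩
  obtain ⟨C, hC⟩ := a2 ε hε
  exact ⟨C, fun n hn => by rw [← h n (by omega)]; exact hC n hn⟩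

/-- the constant `1` -/
theorem ss_one : PF.SS (1 : ArithmeticFunction ℂ) := by
  have hL : ∀ s : ℂ, LSeries (1 : ArithmeticFunction ℂ) s = 1 := by
    intro s
    have : LSeries (1 : ArithmeticFunction ℂ) s = LSeries LSeries.delta s := by
      refine LSeries_congr (fun {n} hn => ?_) s
      simp [ArithmeticFunction.one_apply, LSeries.delta]
    rw [this, LSeries_delta]
    rfl
  refine ⟨by simp, fun ε hε => ⟨1, fun n hn => ?_⟩, ⟨0, fun _ => 1, differentiable_const _, ⟨1, 1, ?_⟩, ?_, 1,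
    one_pos, 0, Fin.elim0, Fin.elim0, 1, fun j => j.elim0, fun j => j.elim0, by simp, ?_⟩,
    0, fun _ _ => rfl, 0, by norm_num, 0, fun n _ => by simp, fun s _ => ?_⟩
  · have h1 : (1:ℝ) ≤ (n:ℝ) ^ ε := Real.one_le_rpow (by exact_mod_cast hn) hε.le
    rw [ArithmeticFunction.one_apply]
    split_ifs
    · simpa using h1
    · rw [norm_zero]; linarith
  · intro z
    rw [norm_one, one_mul]
    exact Real.one_le_exp (Real.rpow_nonneg (norm_nonneg _) _)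
  · intro s _
    rw [hL, pow_zero, one_mul]
  · intro s _ _
    simp
  · rw [hL, LSeries_zero]
    simp

end Pool.Agent.H483.UF
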