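import Pool.Graph.R_seed8.Y861.SelZ.Main
import Pool.Graph.R_seed8.H177R3.SelLit
import Pool.Graph.R_seed8.H177R3.TaskPFV
import Pool.Graph.R_seed8.H336R4.PF.Final

set_option autoImplicit false

/-!
# The element `ζ H₁ H₂`
-/

namespace Pool.Agent.H483.UF

open Finset Pool.Agent.H469R10.HO Pool.Agent.H902R3.I469 Pool.Agent.H902R3.PZ Filter Topology Complex
open Pool.Agent.Y861.SelZ

/-- two data with different zeros, and `Z / (dd₁ dd₂)` -/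
structure Two where
  W₁ : VDat
  W₂ : VDat
  V : ℂ → ℂ
  hd : Differentiable ℂ V
  hg : Gr V
  hc : ∀ s, V (starRingEnd ℂ s) = starRingEnd ℂ (V s)
  hV : ∀ s, W₁.D.Z s = W₁.D.dd s * W₂.D.dd s * V s

lemma dd_of_ne {D₁ D₂ : Dat} (h : D₁.γ ≠ D₂.γ) : D₂.dd D₁.rho ≠ 0 := by
  have e : D₂.dd D₁.rho = ((D₂.γ ^ 2 - D₁.γ ^ 2 : ℝ) : ℂ) := by
    unfold Dat.dd Dat.rho
    push_cast
    linear_combination ((D₁.γ : ℂ) ^ 2) * Complex.I_sq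
  rw [e]
  have h1 := D₁.hγ
  have h2 := D₂.hγ
  intro h0
  have h3 : D₂.γ ^ 2 - D₁.γ ^ 2 = 0 := by exact_mod_cast h0
  have h4 : (D₂.γ - D₁.γ) * (D₂.γ + D₁.γ) = 0 := by linear_combination h3
  rcases mul_eq_zero.1 h4 with h5 | h5
  · exact h (by linarith)
  · linarith

/-- the functions `Z` of two data agree -/
lemma Z_unique (D₁ D₂ : Dat) : D₁.Z = D₂.Z := by
  funext s
  by_cases h : s = 1
  · rw [h, D₁.hZ1, D₂.hZ1]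
  · rw [D₁.hZ s h, D₂.hZ s h]

theorem exists_two {D₁ D₂ : Dat} (h : D₁.γ ≠ D₂.γ) : ∃ T : Two, T.W₁.D = D₁ ∧ T.W₂.D = D₂ := by
  obtain ⟨W₁, hW₁, -⟩ := exists_VDat D₁
  obtain ⟨W₂, hW₂, -⟩ := exists_VDat D₂
  subst hW₁ hW₂
  have h0 : W₂.D.Y W₁.D.rho = 0 := by
    have h1 := W₂.D.hZY W₁.D.rho
    have h2 : W₂.D.Z W₁.D.rho = 0 := by
      rw [W₂.D.hZ _ W₁.D.rho_ne_one, W₁.D.zeta_rho, mul_zero]
    rw [h2] at h1
    have h3 := dd_of_ne h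
    rcases mul_eq_zero.1 h1.symm with h4 | h4
    · exact absurd h4 h3
    · exact h4
  obtain ⟨V, v1, v2, v3, v4⟩ := step W₁.D W₂.D.Y W₂.D.hYd (Gr.of W₂.D.hYg) W₂.D.Y_conj h0
  refine ⟨⟨W₁, W₂, V, v1, v2, v3, fun s => ?_⟩, rfl, rfl⟩
  rw [Z_unique W₁.D W₂.D, W₂.D.hZY s, v4 s]
  unfold Dat.dd
  ring

namespace Two

variable (T : Two)

/-- `(s - 1) ζ H₁ H₂` -/
noncomputable def G (s : ℂ) : ℂ := T.W₁.M s * T.W₂.M s * T.V s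

/-- `ζ H₁ H₂` -/
noncomputable def F (s : ℂ) : ℂ := T.G s / (s - 1)

/-- the coefficients -/
noncomputable def a : ℕ → ℂ :=
  LSeries.convolution (aa T.W₁.D.m T.W₁.D.β) (ff T.W₂.D.m T.W₂.D.β)

lemma G_diff : Differentiable ℂ T.G := (T.W₁.M_diff.mul T.W₂.M_diff).mul T.hd

lemma G_gr : Gr T.G := (T.W₁.M_gr.mul T.W₂.M_gr).mul T.hg

lemma F_conj (s : ℂ) : T.F (starRingEnd ℂ s) = starRingEnd ℂ (T.F s) := by
  unfold F G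
  rw [T.W₁.M_conj, T.W₂.M_conj, T.hc]
  simp only [map_div₀, map_mul, map_sub, map_one]

lemma F_series {s : ℂ} (hs : 1 < s.re) :
    T.F s = LSeries (aa T.W₁.D.m T.W₁.D.β) s * LSeries (ff T.W₂.D.m T.W₂.D.β) s := by
  have hs1 : s ≠ 1 := by
    intro h
    rw [h] at hs
    simp at hs
  have hs2 : s - 1 ≠ 0 := sub_ne_zero.2 hs1
  have hd1 : T.W₁.D.dd s ≠ 0 := T.W₁.D.dd_ne (by linarith)
  have hd2 : T.W₂.D.dd s ≠ 0 := T.W₂.D.dd_ne (by linarith)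
  rw [LSeries_aa T.W₁.D.hβ hs, ← T.W₁.D.H_series (by linarith [T.W₁.D.kap_lt]),
    ← T.W₂.D.H_series (by linarith [T.W₂.D.kap_lt]), T.W₁.H_eq hd1, T.W₂.H_eq hd2]
  have hz : riemannZeta s = T.W₁.D.dd s * T.W₂.D.dd s * T.V s / (s - 1) := by
    rw [← T.hV, T.W₁.D.hZ s hs1]
    field_simp
  rw [hz]
  unfold F G
  field_simp

lemma eul_aa {m : ℕ} {β : ℕ → ℝ}
    (hβ : ∀ p : ℕ, p.Prime → |β p| ≤ (p : ℝ) ^ (-(1 / 2 + m / lamOf m))) :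
    Eul (aa m β) ((fun n : ℕ => (ArithmeticFunction.vonMangoldt n : ℂ) / (Real.log n : ℂ)) + bH m β) :=
  eul_one.mul (eul_ff hβ)

lemma eul : Eul T.a (((fun n : ℕ => (ArithmeticFunction.vonMangoldt n : ℂ) / (Real.log n : ℂ)) +
    bH T.W₁.D.m T.W₁.D.β) + bH T.W₂.D.m T.W₂.D.β) :=
  (eul_aa T.W₁.D.hβ).mul (eul_ff T.W₂.D.hβ)

lemma a_series {s : ℂ} (hs : 1 < s.re) : LSeries T.a s = T.F s := by
  rw [T.F_series hs]
  exact LSeries_convolution' (summable_aa T.W₁.D.hβ hs) (summable_term T.W₂.D.hβ hs)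

/-- the symmetric function with the zeros removed -/
noncomputable def X (s : ℂ) : ℂ := Complex.Gammaℝ s * T.V s / (s - 1)

lemma X_eq {s : ℂ} (hs0 : s ≠ 0) (hs1 : s ≠ 1) (hg : Complex.Gammaℝ s ≠ 0)
    (hd1 : T.W₁.D.dd s ≠ 0) (hd2 : T.W₂.D.dd s ≠ 0) :
    T.X s = completedRiemannZeta s / (T.W₁.D.dd s * T.W₂.D.dd s) := by
  have h1 := riemannZeta_def_of_ne_zero hs0
  have h2 := T.W₁.D.hZ s hs1
  rw [T.hV s] at h2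
  have h3 : s - 1 ≠ 0 := sub_ne_zero.2 hs1
  have h4 : T.V s = (s - 1) * riemannZeta s / (T.W₁.D.dd s * T.W₂.D.dd s) := by
    rw [← h2]; field_simp
  unfold X
  rw [h4, h1]
  field_simp

lemma X_cont {s : ℂ} (hs1 : s ≠ 1) (h : ∀ n : ℕ, (1 / 2 : ℂ) * s ≠ -(n : ℂ)) : ContinuousAt T.X s := by
  unfold X
  have h1 := Dat.gr_cont h
  have h2 := T.hd.continuous.continuousAt (x := s)
  exact (h1.mul h2).div (by fun_prop) (sub_ne_zero.2 hs1)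

lemma X_one_sub {s : ℂ} (hs0 : s ≠ 0) (hs1 : s ≠ 1) (h1 : ∀ n : ℕ, (1 / 2 : ℂ) * s ≠ -(n : ℂ))
    (h2 : ∀ n : ℕ, (1 / 2 : ℂ) * (1 - s) ≠ -(n : ℂ)) : T.X (1 - s) = T.X s := by
  have hc1 : ContinuousAt T.X s := T.X_cont hs1 h1
  have hs0' : 1 - s ≠ 1 := by
    intro h; apply hs0; linear_combination -h
  have hsub : ContinuousAt (fun z : ℂ => 1 - z) s := by fun_prop
  have hc2 : ContinuousAt (fun z => T.X (1 - z)) s :=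
    ContinuousAt.comp (g := T.X) (T.X_cont hs0' h2) hsub
  have t1 : Tendsto T.X (𝓝[≠] s) (𝓝 (T.X s)) := hc1.tendsto.mono_left nhdsWithin_le_nhds
  have t2 : Tendsto (fun z => T.X (1 - z)) (𝓝[≠] s) (𝓝 (T.X (1 - s))) :=
    hc2.tendsto.mono_left nhdsWithin_le_nhds
  refine tendsto_nhds_unique_of_eventuallyEq t2 t1 ?_
  have e1 : ∀ᶠ z in 𝓝[≠] s, Complex.Gammaℝ z ≠ 0 := (Dat.half_open h1).filter_mono nhdsWithin_le_nhds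
  have e2 : ∀ᶠ z in 𝓝[≠] s, Complex.Gammaℝ (1 - z) ≠ 0 :=
    (hsub.eventually (Dat.half_open h2)).filter_mono nhdsWithin_le_nhds
  have e3 : ∀ᶠ z in 𝓝[≠] s, z ≠ 0 := nhdsWithin_le_nhds (isOpen_ne.mem_nhds hs0)
  have e4 : ∀ᶠ z in 𝓝[≠] s, z ≠ 1 := nhdsWithin_le_nhds (isOpen_ne.mem_nhds hs1)
  filter_upwards [e1, e2, e3, e4, T.W₁.D.dd_eventually s, T.W₂.D.dd_eventually s] with z z1 z2 z3 z4 z5 z6
  have z3' : 1 - z ≠ 1 := by intro h; apply z3; linear_combination -h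
  have z4' : 1 - z ≠ 0 := by intro h; apply z4; linear_combination -h
  rw [T.X_eq z4' z3' z2 (by rwa [Dat.dd_one_sub]) (by rwa [Dat.dd_one_sub]), T.X_eq z3 z4 z1 z5 z6,
    completedRiemannZeta_one_sub, Dat.dd_one_sub, Dat.dd_one_sub]

/-- conductor -/
noncomputable def Q : ℝ := Real.exp (-(1 / 2 * Real.log Real.pi + T.W₁.D.lam * Real.log T.W₁.D.c +
  T.W₂.D.lam * Real.log T.W₂.D.c))

lemma Q_pos : 0 < T.Q := Real.exp_pos _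

lemma Q_pow (s : ℂ) : ((T.Q : ℝ) : ℂ) ^ s =
    Complex.exp (-((1 / 2 : ℂ) * Real.log Real.pi) * s) *
      Complex.exp (-(T.W₁.D.lam * Real.log T.W₁.D.c) * s) *
      Complex.exp (-(T.W₂.D.lam * Real.log T.W₂.D.c) * s) := by
  unfold Q
  rw [pow_eq_exp (Real.exp_pos _), Real.log_exp, ← Complex.exp_add, ← Complex.exp_add]
  congr 1
  push_cast
  ring

lemma V_completed (s : ℂ) :
    T.V s * Complex.exp (-((1 / 2 : ℂ) * Real.log Real.pi) * s) * Complex.Gamma (1 / 2 * s) / (s - 1) =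
      T.X s := by
  unfold X
  rw [Complex.Gammaℝ_def]
  have hpi : (Real.pi : ℂ) ^ (-s / 2) = Complex.exp (-((1 / 2 : ℂ) * Real.log Real.pi) * s) := by
    rw [pow_eq_exp Real.pi_pos]
    congr 1
    ring
  have hs2 : s / 2 = 1 / 2 * s := by ring
  rw [hpi, hs2]
  ring

lemma completed {s : ℂ} (h2 : ∀ n : ℕ, (T.W₁.D.lam : ℂ) * s + 1 / 6 ≠ -(n : ℂ))
    (h3 : ∀ n : ℕ, (T.W₂.D.lam : ℂ) * s + 1 / 6 ≠ -(n : ℂ)) :
    T.F s * ((T.Q : ℝ) : ℂ) ^ s *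
      (Complex.Gamma (1 / 2 * s) * Complex.Gamma ((T.W₁.D.lam : ℂ) * s + 1 / 6) *
        Complex.Gamma ((T.W₂.D.lam : ℂ) * s + 1 / 6)) =
      T.X s * (Complex.exp ((Real.log T.W₁.D.c : ℂ) * (1 / 6 - 2 * T.W₁.D.m - 1)) * T.W₁.L s) *
        (Complex.exp ((Real.log T.W₂.D.c : ℂ) * (1 / 6 - 2 * T.W₂.D.m - 1)) * T.W₂.L s) := by
  rw [← T.W₁.M_completed h2, ← T.W₂.M_completed h3, ← T.V_completed s, T.Q_pow]
  unfold F G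
  ring

theorem FE {s : ℂ} (hs0 : s ≠ 0) (hs1 : s ≠ 1) (h1 : ∀ n : ℕ, (1 / 2 : ℂ) * s ≠ -(n : ℂ))
    (h2 : ∀ n : ℕ, (T.W₁.D.lam : ℂ) * s + 1 / 6 ≠ -(n : ℂ))
    (h3 : ∀ n : ℕ, (T.W₂.D.lam : ℂ) * s + 1 / 6 ≠ -(n : ℂ))
    (h4 : ∀ n : ℕ, (1 / 2 : ℂ) * (1 - s) ≠ -(n : ℂ))
    (h5 : ∀ n : ℕ, (T.W₁.D.lam : ℂ) * (1 - s) + 1 / 6 ≠ -(n : ℂ))
    (h6 : ∀ n : ℕ, (T.W₂.D.lam : ℂ) * (1 - s) + 1 / 6 ≠ -(n : ℂ)) :
    T.F s * ((T.Q : ℝ) : ℂ) ^ s *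
      (Complex.Gamma (1 / 2 * s) * Complex.Gamma ((T.W₁.D.lam : ℂ) * s + 1 / 6) *
        Complex.Gamma ((T.W₂.D.lam : ℂ) * s + 1 / 6)) =
    T.F (1 - s) * ((T.Q : ℝ) : ℂ) ^ (1 - s) *
      (Complex.Gamma (1 / 2 * (1 - s)) * Complex.Gamma ((T.W₁.D.lam : ℂ) * (1 - s) + 1 / 6) *
        Complex.Gamma ((T.W₂.D.lam : ℂ) * (1 - s) + 1 / 6)) := by
  rw [T.completed h2 h3, T.completed h5 h6, T.X_one_sub hs0 hs1 h1 h4, VDat.L_one_sub, VDat.L_one_sub]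

end Two

end Pool.Agent.H483.UF
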