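import Pool.Agent.H483.UF.Mon
import Pool.Graph.R_seed8.H486R3.TaskPZZ

set_option autoImplicit false

/-!
# Zeta is primitive, and does not divide `ζ H`
-/

namespace Pool.Agent.H483.UF

open Finset Filter Topology Complex
open Pool.Agent.H336R4 Pool.Agent.H902R3.PZ Pool.Agent.H902R3.I469

lemma zeta_fe : PF.FE 1 Pool.Agent.H486R3.PZZ.Z (Real.exp (-(1 / 2 * Real.log Real.pi))) 1
    (fun _ => 1 / 2) (fun _ => 0) 1 := by
  refine ⟨fun _ => by norm_num, fun _ => by simp, by simp, fun s hs0 hs1 => ?_⟩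
  have key : ∀ w : ℂ, 0 < w.re → w.re < 1 → ((Real.exp (-(1 / 2 * Real.log Real.pi)) : ℝ) : ℂ) ^ w *
      (∏ _j : Fin 1, Complex.Gamma (((1 / 2 : ℝ) : ℂ) * w + 0)) *
      (Pool.Agent.H486R3.PZZ.Z w / (w - 1) ^ 1) = completedRiemannZeta w := by
    intro w hw0 hw1
    have hw : w ≠ 0 := by intro h; rw [h] at hw0; simp at hw0
    have hw' : w ≠ 1 := by intro h; rw [h] at hw1; simp at hw1
    have h1 : w - 1 ≠ 0 := sub_ne_zero.2 hw'
    have hg : Complex.Gammaℝ w ≠ 0 := Complex.Gammaℝ_ne_zero_of_re_pos hw0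
    have h2 := riemannZeta_def_of_ne_zero hw
    rw [Pool.Agent.H486R3.PZZ.Z_ne hw', pow_one, mul_div_cancel_left₀ _ h1, h2, Fin.prod_univ_one,
      add_zero, Complex.Gammaℝ_def]
    rw [Complex.Gammaℝ_def] at hg
    have e1 : ((Real.exp (-(1 / 2 * Real.log Real.pi)) : ℝ) : ℂ) ^ w = (Real.pi : ℂ) ^ (-w / 2) := by
      rw [pow_eq_exp (Real.exp_pos _), Real.log_exp, pow_eq_exp Real.pi_pos]
      congr 1
      push_cast
      ring
    have e2 : ((1 / 2 : ℝ) : ℂ) * w = w / 2 := by push_cast; ring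
    rw [e1, e2]
    have hg2 : Complex.Gamma (w / 2) ≠ 0 := right_ne_zero_of_mul hg
    field_simp
  have hs' : 0 < (1 - starRingEnd ℂ s).re := by simp; linarith
  have hs'' : (1 - starRingEnd ℂ s).re < 1 := by simp; linarith
  rw [key s hs0 hs1, key _ hs' hs'', one_mul]
  have h1 : (1 : ℂ) - starRingEnd ℂ s = starRingEnd ℂ (1 - s) := by rw [map_sub, map_one]
  rw [h1]
  have hs0' : 0 < (1 - s).re := by simp; linarith
  have hne : (1 - s : ℂ) ≠ 0 := by intro h; rw [h] at hs0'; simp at hs0'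
  have hnec : (starRingEnd ℂ (1 - s)) ≠ 0 := (map_ne_zero _).2 hne
  have hgr : Complex.Gammaℝ (1 - s) ≠ 0 := Complex.Gammaℝ_ne_zero_of_re_pos hs0'
  have hgrc : Complex.Gammaℝ (starRingEnd ℂ (1 - s)) ≠ 0 := Complex.Gammaℝ_ne_zero_of_re_pos (by simpa using hs0')
  have z1 := riemannZeta_def_of_ne_zero hne
  have z2 := riemannZeta_def_of_ne_zero hnec
  rw [riemannZeta_conj, z1] at z2
  have hG : Complex.Gammaℝ (starRingEnd ℂ (1 - s)) = starRingEnd ℂ (Complex.Gammaℝ (1 - s)) := by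
    rw [Complex.Gammaℝ_def, Complex.Gammaℝ_def, map_mul, ← Complex.Gamma_conj, map_div₀, Complex.conj_ofNat]
    congr 1
    rw [pow_eq_exp Real.pi_pos, pow_eq_exp Real.pi_pos, ← Complex.exp_conj, map_mul, Complex.conj_ofReal,
      map_div₀, map_neg, Complex.conj_ofNat]
  rw [hG, map_div₀] at z2
  have hgr' : starRingEnd ℂ (Complex.Gammaℝ (1 - s)) ≠ 0 := (map_ne_zero _).2 hgr
  have z3 : starRingEnd ℂ (completedRiemannZeta (1 - s)) = completedRiemannZeta (starRingEnd ℂ (1 - s)) := by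
    field_simp at z2
    exact z2
  rw [← z3, Complex.conj_conj, completedRiemannZeta_one_sub]

lemma zeta_cls : PF.Cls (1 : ℕ → ℂ) 1 := by
  have hE := Pool.Agent.Y861.SelZ.eul_one
  refine ⟨rfl, hE.ram, ⟨1, Pool.Agent.H486R3.PZZ.Z, ⟨Pool.Agent.H486R3.PZZ.Z_diff,
    (Gr.of Pool.Agent.H486R3.PZZ.Z_growth).order, fun s hs => ?_⟩, Real.exp (-(1 / 2 * Real.log Real.pi)), 1,
    fun _ => 1 / 2, fun _ => 0, 1, Real.exp_pos _, zeta_fe, by simp⟩, ?_⟩
  · have hs1 : s ≠ 1 := by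
      intro h
      rw [h] at hs
      simp at hs
    rw [Pool.Agent.H486R3.PZZ.Z_ne hs1, LSeries_one_eq_riemannZeta hs, pow_one]
  · obtain ⟨C, hC⟩ := hE.bd
    exact ⟨_, hE.supp, 0, by norm_num, C, fun n _ => by rw [Real.rpow_zero, mul_one]; exact hC n,
      fun s hs => ((hE.exp s hs).2).symm⟩

lemma degree_ge_one {a : ℕ → ℂ} {d : ℝ} (ha : PF.Cls a d) (hnt : PF.NT a) : 1 ≤ d := by
  by_contra hd
  obtain ⟨n, hn, hne⟩ := hnt
  exact hne (PF.degGap a d ha (not_le.1 hd) n hn)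

theorem zeta_prim : PF.Prim (1 : ℕ → ℂ) := by
  refine ⟨Pool.Agent.H177R3.PFV.cls_ss zeta_cls, ⟨2, le_rfl, by simp⟩, fun f g hf hg hfg => ?_⟩
  by_contra hcon
  rw [not_or] at hcon
  obtain ⟨h1, h2⟩ := hcon
  push Not at h1 h2
  obtain ⟨d₁, hd₁⟩ := Pool.Agent.H177R3.PFV.ss_cls hf
  obtain ⟨d₂, hd₂⟩ := Pool.Agent.H177R3.PFV.ss_cls hg
  have hadd := PF.degAdd _ f g 1 d₁ d₂ zeta_cls hd₁ hd₂ hfg
  have e1 := degree_ge_one hd₁ h1
  have e2 := degree_ge_one hd₂ h2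
  linarith

/-- `ζ` does not divide `ζ H` -/
theorem not_dvd (D : Dat) {K : ℕ → ℂ} (hK : PF.SS K) :
    ¬ ∀ s : ℂ, 1 < s.re → LSeries (aa D.m D.β) s = riemannZeta s * LSeries K s := by
  intro h
  obtain ⟨-, -, ⟨m, G, hG, -, hGs, -⟩, -⟩ := hK
  have hd : Differentiable ℂ D.dd := Pool.Agent.Y861.SelZ.dd_diff D
  have key : (fun s => D.dd s * G s) = fun s => (s - 1) ^ m * (D.E s * (D.dd s * D.Λ (D.zz s) - D.kk)) := by
    have h1 : AnalyticOnNhd ℂ (fun s => D.dd s * G s) Set.univ := fun z _ => (hd.mul hG).analyticAt z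
    have h2' : Differentiable ℂ (fun s => (s - 1) ^ m * (D.E s * (D.dd s * D.Λ (D.zz s) - D.kk))) :=
      (by fun_prop : Differentiable ℂ fun s : ℂ => (s - 1) ^ m).mul D.num_diff
    have h2 : AnalyticOnNhd ℂ (fun s => (s - 1) ^ m * (D.E s * (D.dd s * D.Λ (D.zz s) - D.kk))) Set.univ :=
      fun z _ => h2'.analyticAt z
    refine h1.eq_of_eventuallyEq h2 (z₀ := (3 : ℂ)) ?_
    have ho : IsOpen {z : ℂ | 2 < z.re} := isOpen_lt continuous_const Complex.continuous_re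
    have hm : (3 : ℂ) ∈ {z : ℂ | 2 < z.re} := by
      change (2 : ℝ) < (3 : ℂ).re
      norm_num
    filter_upwards [ho.mem_nhds hm] with s hs
    have hs : 2 < s.re := hs
    have hs1 : 1 < s.re := by linarith
    have h3 := h s hs1
    have h4 := riemannZeta_ne_zero_of_one_lt_re hs1
    rw [LSeries_aa D.hβ hs1] at h3
    have h5 := mul_left_cancel₀ h4 h3
    have hdd : D.dd s ≠ 0 := D.dd_ne (by linarith)
    rw [← D.H_series (by linarith [D.kap_lt])] at h5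
    rw [hGs s hs1, ← h5]
    unfold Dat.H
    rw [D.Λ'_eq]
    field_simp
  have h8 : D.dd D.rho * G D.rho = (D.rho - 1) ^ m * (D.E D.rho * (D.dd D.rho * D.Λ (D.zz D.rho) - D.kk)) :=
    congrFun key D.rho
  have h9 := D.num_rho_ne
  have h10 : (D.rho - 1) ^ m ≠ 0 := pow_ne_zero _ (sub_ne_zero.2 D.rho_ne_one)
  apply mul_ne_zero h10 h9
  rw [← h8, D.dd_rho, zero_mul]

end Pool.Agent.H483.UF
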